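import Mathlib

/-!
K9h1/HB (helper1, MP_0430e4_lc): sums of binomial coefficients and the entropy function.
-/

set_option autoImplicit false

open Finset

namespace Pool.Agent.K9h1.HB

/-- the size of a ball of radius `m` in the cube of dimension `n` -/
def vol (n m : ℕ) : ℕ := ∑ i ∈ range (m + 1), n.choose i

lemma vol_pos (n m : ℕ) : 0 < vol n m := by
  unfold vol
  rw [Finset.sum_range_succ']
  simp

lemma vol_mono (n : ℕ) {m m' : ℕ} (h : m ≤ m') : vol n m ≤ vol n m' := by
  unfold vol
  exact Finset.sum_le_sum_of_subset (fun i hi => by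
    rw [Finset.mem_range] at hi ⊢
    omega)

lemma vol_le_two_pow (n m : ℕ) : vol n m ≤ 2 ^ n := by
  rw [← Nat.sum_range_choose]
  unfold vol
  by_cases h : m ≤ n
  · exact Finset.sum_le_sum_of_subset (fun i hi => by
      rw [Finset.mem_range] at hi ⊢
      omega)
  · rw [← Finset.sum_subset (s₁ := range (n + 1)) (s₂ := range (m + 1))]
    · intro i hi
      rw [Finset.mem_range] at hi ⊢
      omega
    · intro i _ hi
      rw [Finset.mem_range] at hi
      exact Nat.choose_eq_zero_of_lt (by omega)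

lemma binEntropy_eq' (p : ℝ) :
    Real.binEntropy p = -(p * Real.log p) - (1 - p) * Real.log (1 - p) := by
  unfold Real.binEntropy
  rw [Real.log_inv, Real.log_inv]
  ring

lemma vol_le {n m : ℕ} {p : ℝ} (hp0 : 0 < p) (hp1 : p ≤ 1 / 2) (hm : (m : ℝ) ≤ p * n) :
    (vol n m : ℝ) ≤ Real.exp (n * Real.binEntropy p) := by
  have h1p : 0 < 1 - p := by linarith
  have hn0 : (0 : ℝ) ≤ n := Nat.cast_nonneg n
  have hmn : m ≤ n := by
    have : (m : ℝ) ≤ n := hm.trans (by nlinarith)
    exact_mod_cast this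
  have hsum : ∑ i ∈ range (n + 1), (n.choose i : ℝ) * (p ^ i * (1 - p) ^ (n - i)) = 1 := by
    have := add_pow p (1 - p) n
    rw [add_sub_cancel, one_pow] at this
    refine Eq.trans ?_ this.symm
    exact Finset.sum_congr rfl fun i _ => by ring
  have hterm : ∀ i ∈ range (m + 1), Real.exp (-(n * Real.binEntropy p)) ≤
      p ^ i * (1 - p) ^ (n - i) := by
    intro i hi
    rw [Finset.mem_range] at hi
    have hin : i ≤ n := by omega
    have e : p ^ i * (1 - p) ^ (n - i) =
        Real.exp (i * Real.log p + (n - i) * Real.log (1 - p)) := by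
      rw [Real.exp_add, ← Nat.cast_sub hin, mul_comm (i : ℝ), mul_comm (((n - i : ℕ)) : ℝ),
        Real.exp_mul, Real.exp_mul, Real.exp_log hp0, Real.exp_log h1p, Real.rpow_natCast,
        Real.rpow_natCast]
    rw [e]
    refine Real.exp_le_exp.2 ?_
    rw [binEntropy_eq']
    have hl : Real.log p ≤ Real.log (1 - p) := Real.log_le_log hp0 (by linarith)
    have hi' : (i : ℝ) ≤ p * n := by
      have : (i : ℝ) ≤ m := by exact_mod_cast (by omega : i ≤ m)
      linarith
    nlinarith
  have h2 : (vol n m : ℝ) * Real.exp (-(n * Real.binEntropy p)) ≤ 1 := by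
    rw [← hsum]
    unfold vol
    push_cast
    rw [Finset.sum_mul]
    refine (Finset.sum_le_sum fun i hi =>
      mul_le_mul_of_nonneg_left (hterm i hi) (Nat.cast_nonneg _)).trans ?_
    refine Finset.sum_le_sum_of_subset_of_nonneg (fun i hi => ?_) fun i _ _ => by positivity
    rw [Finset.mem_range] at hi ⊢
    omega
  rw [Real.exp_neg, ← div_eq_mul_inv, div_le_one (Real.exp_pos _)] at h2
  exact h2

/-- the largest term of the binomial expansion -/
lemma term_le {n m : ℕ} (hm : m ≤ n) (i : ℕ) (hi : i ≤ n) :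
    (n.choose i : ℝ) * ((m : ℝ) ^ i * ((n : ℝ) - m) ^ (n - i)) ≤
      (n.choose m : ℝ) * ((m : ℝ) ^ m * ((n : ℝ) - m) ^ (n - m)) := by
  have hnm : (0 : ℝ) ≤ (n : ℝ) - m := by
    have : (m : ℝ) ≤ n := by exact_mod_cast hm
    linarith
  have hm0 : (0 : ℝ) ≤ m := Nat.cast_nonneg m
  -- ratios of consecutive terms
  have hc : ∀ j, j < n → (n.choose (j + 1) : ℝ) * (j + 1) = n.choose j * (n - j) := by
    intro j hj
    have h1 := Nat.choose_succ_right_eq n j
    have h2 : ((n.choose (j + 1) * (j + 1) : ℕ) : ℝ) = ((n.choose j * (n - j) : ℕ) : ℝ) := by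
      rw [h1]
    push_cast at h2
    rw [Nat.cast_sub hj.le] at h2
    exact h2
  have hp : ∀ j, j < n → ((n : ℝ) - m) ^ (n - j) = ((n : ℝ) - m) ^ (n - (j + 1)) * (n - m) := by
    intro j hj
    rw [← pow_succ]
    congr 1
    omega
  obtain ⟨t, ht⟩ : ∃ t : ℕ → ℝ, t = fun i => (n.choose i : ℝ) * ((m : ℝ) ^ i *
      ((n : ℝ) - m) ^ (n - i)) := ⟨_, rfl⟩
  have ht0 : ∀ i, 0 ≤ t i := fun i => by
    rw [ht]
    exact mul_nonneg (Nat.cast_nonneg _) (mul_nonneg (pow_nonneg hm0 _) (pow_nonneg hnm _))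
  have hup : ∀ j, j < m → t j ≤ t (j + 1) := by
    intro j hj
    have hjn : j < n := by omega
    have h1 := hc j hjn
    have h2 := hp j hjn
    have hj1 : (0 : ℝ) < (j : ℝ) + 1 := by positivity
    have hjm : (j : ℝ) + 1 ≤ m := by exact_mod_cast hj
    have e : t (j + 1) * (j + 1) = (n.choose j : ℝ) * (n - j) * ((m : ℝ) ^ j *
        ((n : ℝ) - m) ^ (n - (j + 1))) * m := by
      rw [ht]
      simp only
      rw [← h1, pow_succ]
      ring
    have e2 : t j * (j + 1) = (n.choose j : ℝ) * (j + 1) * ((m : ℝ) ^ j *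
        ((n : ℝ) - m) ^ (n - (j + 1))) * (n - m) := by
      rw [ht]
      simp only
      rw [h2]
      ring
    refine le_of_mul_le_mul_right ?_ hj1
    rw [e, e2]
    have h3 : ((j : ℝ) + 1) * (n - m) ≤ (n - j) * m := by
      have hn0 : (0 : ℝ) ≤ n := Nat.cast_nonneg n
      nlinarith
    have h4 : 0 ≤ (n.choose j : ℝ) * ((m : ℝ) ^ j * ((n : ℝ) - m) ^ (n - (j + 1))) := by
      positivity
    nlinarith
  have hdown : ∀ j, m ≤ j → j < n → t (j + 1) ≤ t j := by
    intro j hj hjn
    have h1 := hc j hjn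
    have h2 := hp j hjn
    have hj1 : (0 : ℝ) < (j : ℝ) + 1 := by positivity
    have hjm : (m : ℝ) ≤ j := by exact_mod_cast hj
    have hjn' : (j : ℝ) + 1 ≤ n := by exact_mod_cast hjn
    have e : t (j + 1) * (j + 1) = (n.choose j : ℝ) * (n - j) * ((m : ℝ) ^ j *
        ((n : ℝ) - m) ^ (n - (j + 1))) * m := by
      rw [ht]
      simp only
      rw [← h1, pow_succ]
      ring
    have e2 : t j * (j + 1) = (n.choose j : ℝ) * (j + 1) * ((m : ℝ) ^ j *
        ((n : ℝ) - m) ^ (n - (j + 1))) * (n - m) := by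
      rw [ht]
      simp only
      rw [h2]
      ring
    refine le_of_mul_le_mul_right ?_ hj1
    rw [e, e2]
    have h3 : ((n : ℝ) - j) * m ≤ (j + 1) * (n - m) := by nlinarith
    have h4 : 0 ≤ (n.choose j : ℝ) * ((m : ℝ) ^ j * ((n : ℝ) - m) ^ (n - (j + 1))) := by
      positivity
    nlinarith
  have key : t i ≤ t m := by
    rcases le_total i m with h | h
    · obtain ⟨k, hk⟩ := Nat.exists_eq_add_of_le h
      have : ∀ k, i + k ≤ m → t i ≤ t (i + k) := by
        intro k
        induction k with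
        | zero => intro _; exact le_rfl
        | succ k ih =>
          intro hk
          exact (ih (by omega)).trans (hup (i + k) (by omega))
      rw [hk]
      exact this k hk.ge
    · obtain ⟨k, hk⟩ := Nat.exists_eq_add_of_le h
      have : ∀ k, m + k ≤ n → t (m + k) ≤ t m := by
        intro k
        induction k with
        | zero => intro _; exact le_rfl
        | succ k ih =>
          intro hk
          exact (hdown (m + k) (by omega) (by omega)).trans (ih (by omega))
      rw [hk]
      exact this k (by omega)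
  rw [ht] at key
  exact key

/-- the lower bound for a binomial coefficient -/
lemma choose_ge {n m : ℕ} (hn : 0 < n) (hm : m ≤ n) :
    Real.exp (n * Real.binEntropy ((m : ℝ) / n)) ≤ (n + 1) * n.choose m := by
  have hnR : (0 : ℝ) < n := by exact_mod_cast hn
  have hm0 : (0 : ℝ) ≤ m := Nat.cast_nonneg m
  have hmn : (m : ℝ) ≤ n := by exact_mod_cast hm
  have h1 : (n : ℝ) ^ n ≤ (n + 1) * ((n.choose m : ℝ) * ((m : ℝ) ^ m * ((n : ℝ) - m) ^ (n - m))) := by
    have h2 := add_pow (m : ℝ) ((n : ℝ) - m) n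
    rw [add_sub_cancel] at h2
    rw [h2]
    have h3 : ∀ i ∈ range (n + 1), (m : ℝ) ^ i * ((n : ℝ) - m) ^ (n - i) * (n.choose i : ℝ) ≤
        (n.choose m : ℝ) * ((m : ℝ) ^ m * ((n : ℝ) - m) ^ (n - m)) := by
      intro i hi
      rw [Finset.mem_range] at hi
      have := term_le hm i (by omega)
      linarith
    refine (Finset.sum_le_card_nsmul _ _ _ h3).trans ?_
    rw [Finset.card_range, nsmul_eq_mul]
    push_cast
    exact le_rfl
  -- the power in terms of the entropy
  have h4 : (m : ℝ) ^ m * ((n : ℝ) - m) ^ (n - m) =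
      (n : ℝ) ^ n * Real.exp (-(n * Real.binEntropy ((m : ℝ) / n))) := by
    obtain ⟨p, hp⟩ : ∃ p, p = (m : ℝ) / n := ⟨_, rfl⟩
    have hpm : (m : ℝ) = p * n := by rw [hp]; field_simp
    have hpm' : ((n : ℝ) - m) = (1 - p) * n := by rw [hpm]; ring
    rw [← hp]
    have h5 : ∀ (x : ℝ) (k : ℕ), 0 ≤ x → (k = 0 ∨ 0 < x) → x ^ k = Real.exp (k * Real.log x) := by
      intro x k hx h
      rcases h with h | h
      · rw [h]; simp
      · rw [mul_comm, Real.exp_mul, Real.exp_log h, Real.rpow_natCast]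
    have e1 : (m : ℝ) ^ m = Real.exp (m * Real.log m) := h5 _ _ hm0 (by
      rcases Nat.eq_zero_or_pos m with h | h
      · exact Or.inl h
      · exact Or.inr (by exact_mod_cast h))
    have e2 : ((n : ℝ) - m) ^ (n - m) = Real.exp ((n - m) * Real.log ((n : ℝ) - m)) := by
      have := h5 ((n : ℝ) - m) (n - m) (by linarith) (by
        rcases Nat.eq_zero_or_pos (n - m) with h | h
        · exact Or.inl h
        · refine Or.inr ?_
          have : m < n := by omega
          have : (m : ℝ) < n := by exact_mod_cast this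
          linarith)
      rw [this, Nat.cast_sub hm]
    have e3 : (n : ℝ) ^ n = Real.exp (n * Real.log n) := h5 _ _ hnR.le (Or.inr hnR)
    rw [e1, e2, e3, ← Real.exp_add, ← Real.exp_add]
    congr 1
    rw [binEntropy_eq']
    have e4 : (m : ℝ) * Real.log m = p * n * (Real.log p + Real.log n) := by
      rcases Nat.eq_zero_or_pos m with h | h
      · have hp0 : p = 0 := by rw [hp, h]; simp
        rw [hp0, h]; simp
      · have hp0 : 0 < p := by
          rw [hp]
          have : (0 : ℝ) < m := by exact_mod_cast h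
          positivity
        rw [hpm, Real.log_mul hp0.ne' hnR.ne']
    have e5 : ((n : ℝ) - m) * Real.log ((n : ℝ) - m) =
        (1 - p) * n * (Real.log (1 - p) + Real.log n) := by
      rcases hmn.eq_or_lt with h | h
      · have hp1 : 1 - p = 0 := by rw [hp, h, div_self hnR.ne', sub_self]
        rw [hpm', hp1]; simp
      · have hp1 : 0 < 1 - p := by
          rw [hp, sub_pos, div_lt_one hnR]
          exact h
        rw [hpm', Real.log_mul hp1.ne' hnR.ne']
    rw [e4, e5]
    ring
  rw [h4] at h1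
  have hnn : (0 : ℝ) < (n : ℝ) ^ n := by positivity
  have h6 : (n : ℝ) ^ n * 1 ≤ (n : ℝ) ^ n * (((n : ℝ) + 1) * n.choose m *
      Real.exp (-(n * Real.binEntropy ((m : ℝ) / n)))) := by
    rw [mul_one]
    refine h1.trans (le_of_eq ?_)
    ring
  have h7 := le_of_mul_le_mul_left h6 hnn
  rw [Real.exp_neg, ← div_eq_mul_inv, le_div_iff₀ (Real.exp_pos _), one_mul] at h7
  exact h7

lemma vol_ge {n m : ℕ} (hn : 0 < n) (hm : m ≤ n) :
    Real.exp (n * Real.binEntropy ((m : ℝ) / n)) ≤ (n + 1) * vol n m := by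
  refine (choose_ge hn hm).trans ?_
  refine mul_le_mul_of_nonneg_left ?_ (by positivity)
  have : n.choose m ≤ vol n m := by
    unfold vol
    exact Finset.single_le_sum (f := fun i => n.choose i) (fun i _ => Nat.zero_le _)
      (Finset.mem_range.2 (Nat.lt_succ_self m))
  exact_mod_cast this

end Pool.Agent.K9h1.HB
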