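import Mathlib
import Pool.Agent.K9h1.HB.Ent

/-!
K9h1/HB (helper1, MP_0430e4_lc): the lower bound for the rank of matrices which fit the graph of
close words.
-/

set_option autoImplicit false

open Finset

namespace Pool.Agent.K9h1.HB

/-! ### Binomial coefficients -/

lemma choose_neg_one (m : ℕ) : Ring.choose (-1 : ℤ) m = (-1) ^ m := by
  induction m with
  | zero => simp
  | succ m ih =>
    have h := Ring.choose_succ_succ (-1 : ℤ) m
    rw [neg_add_cancel] at h
    have h0 : Ring.choose (0 : ℤ) (m + 1) = 0 := by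
      have := Ring.choose_natCast (R := ℤ) 0 (m + 1)
      simpa using this
    rw [h0, ih] at h
    rw [pow_succ]
    linarith

lemma choose_small {j m : ℕ} (h : j < m) : Ring.choose (j : ℤ) m = 0 := by
  rw [Ring.choose_natCast, Nat.choose_eq_zero_of_lt h]
  rfl

/-- expansion in binomial coefficients -/
lemma choose_sub (s : ℕ) : ∀ (m : ℕ) (u : ℤ), Ring.choose (u - s) m =
    ∑ j ∈ range (m + 1), (-1 : ℤ) ^ j * (s.choose j : ℤ) * Ring.choose (u - j) (m - j) := by
  induction s with
  | zero =>
    intro m u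
    rw [Finset.sum_range_succ']
    simp
  | succ s ih =>
    intro m u
    cases m with
    | zero => simp
    | succ m =>
      have h1 : Ring.choose (u - ((s + 1 : ℕ) : ℤ)) (m + 1) =
          Ring.choose (u - s) (m + 1) - Ring.choose (u - 1 - s) m := by
        have h2 := Ring.choose_succ_succ (u - ((s + 1 : ℕ) : ℤ)) m
        have e1 : u - ((s + 1 : ℕ) : ℤ) + 1 = u - s := by push_cast; ring
        have e2 : u - ((s + 1 : ℕ) : ℤ) = u - 1 - s := by push_cast; ring
        rw [e1] at h2
        rw [h2, e2]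
        ring
      rw [h1, ih (m + 1) u, ih m (u - 1)]
      rw [Finset.sum_range_succ' _ (m + 1), Finset.sum_range_succ' _ (m + 1)]
      have e3 : ∀ j ∈ range (m + 1), (-1 : ℤ) ^ (j + 1) * ((s + 1).choose (j + 1) : ℤ) *
          Ring.choose (u - ((j + 1 : ℕ) : ℤ)) (m + 1 - (j + 1)) =
          (-1 : ℤ) ^ (j + 1) * (s.choose (j + 1) : ℤ) *
          Ring.choose (u - ((j + 1 : ℕ) : ℤ)) (m + 1 - (j + 1)) -
          (-1 : ℤ) ^ j * (s.choose j : ℤ) * Ring.choose (u - 1 - j) (m - j) := by
        intro j _
        have e4 : u - ((j + 1 : ℕ) : ℤ) = u - 1 - j := by push_cast; ring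
        rw [e4, Nat.choose_succ_succ, Nat.add_sub_add_right]
        push_cast
        ring
      rw [Finset.sum_congr rfl e3, Finset.sum_sub_distrib]
      simp only [Nat.choose_zero_right, pow_zero]
      ring

/-! ### The matrix of low rank on the words of even weight -/

variable {n : ℕ}

/-- the support -/
def supp (x : Fin n → Bool) : Finset (Fin n) := univ.filter fun i => x i = true

lemma dist_eq (x y : Fin n → Bool) :
    hammingDist x y + 2 * (supp x ∩ supp y).card = (supp x).card + (supp y).card := by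
  unfold hammingDist supp
  have h1 : (univ.filter fun i => x i = true) ∩ (univ.filter fun i => y i = true) =
      univ.filter fun i => x i = true ∧ y i = true := by
    ext i; simp
  rw [h1, Finset.card_filter, Finset.card_filter, Finset.card_filter, Finset.card_filter,
    Finset.mul_sum, ← Finset.sum_add_distrib, ← Finset.sum_add_distrib]
  refine Finset.sum_congr rfl fun i _ => ?_
  cases x i <;> cases y i <;> simp

/-- the words of even weight -/
abbrev Ev (n : ℕ) : Type := {x : Fin n → Bool // Even (supp x).card}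

lemma even_dist (x y : Ev n) : Even (hammingDist x.1 y.1) := by
  have h := dist_eq x.1 y.1
  have hx := x.2
  have hy := y.2
  rcases hx with ⟨a, ha⟩
  rcases hy with ⟨b, hb⟩
  refine ⟨a + b - (supp x.1 ∩ supp y.1).card, ?_⟩
  omega

/-- the index set of the factorisation -/
abbrev Kt (n m : ℕ) : Type := Fin (n + 1) × {S : Finset (Fin n) // S.card ≤ m}

lemma card_Kt (n m : ℕ) : Fintype.card (Kt n m) = (n + 1) * vol n m := by
  rw [Fintype.card_prod, Fintype.card_fin]
  congr 1
  rw [Fintype.card_subtype]
  unfold vol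
  have h1 : (univ.filter fun S : Finset (Fin n) => S.card ≤ m) =
      (range (m + 1)).biUnion fun i => (univ : Finset (Fin n)).powersetCard i := by
    ext S
    simp only [Finset.mem_filter, Finset.mem_univ, true_and, Finset.mem_biUnion, Finset.mem_range,
      Finset.mem_powersetCard, Finset.subset_univ]
    constructor
    · intro h
      exact ⟨S.card, by omega, rfl⟩
    · rintro ⟨i, hi, rfl⟩
      omega
  rw [h1, Finset.card_biUnion]
  · refine Finset.sum_congr rfl fun i _ => ?_
    rw [Finset.card_powersetCard, Finset.card_univ, Fintype.card_fin]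
  · intro i _ j _ hij
    rw [Function.onFun, Finset.disjoint_left]
    intro S hS hS'
    rw [Finset.mem_powersetCard] at hS hS'
    exact hij (hS.2.symm.trans hS'.2)

/-- the left factor -/
def Uf (m : ℕ) (x : Fin n → Bool) (κ : Kt n m) : ℤ :=
  if (supp x).card / 2 = κ.1.1 ∧ κ.2.1 ⊆ supp x then 1 else 0

/-- the right factor -/
noncomputable def Wf (m : ℕ) (κ : Kt n m) (y : Fin n → Bool) : ℤ :=
  if κ.2.1 ⊆ supp y then
    (-1) ^ κ.2.1.card *
      Ring.choose ((κ.1.1 : ℤ) + ((supp y).card / 2 : ℕ) - 1 - κ.2.1.card) (m - κ.2.1.card)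
  else 0

/-- the factorisation -/
lemma factor (m : ℕ) (x y : Ev n) : ∑ κ : Kt n m, Uf m x.1 κ * Wf m κ y.1 =
    Ring.choose ((hammingDist x.1 y.1 / 2 : ℕ) - 1 : ℤ) m := by
  obtain ⟨s, hs⟩ : ∃ s, s = (supp x.1 ∩ supp y.1).card := ⟨_, rfl⟩
  obtain ⟨a, ha⟩ : ∃ a, a = (supp x.1).card / 2 := ⟨_, rfl⟩
  obtain ⟨b, hb⟩ : ∃ b, b = (supp y.1).card / 2 := ⟨_, rfl⟩
  have hax : (supp x.1).card = 2 * a := by
    obtain ⟨c, hc⟩ := x.2
    omega
  have hby : (supp y.1).card = 2 * b := by
    obtain ⟨c, hc⟩ := y.2
    omega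
  have hd := dist_eq x.1 y.1
  have e1 : ((hammingDist x.1 y.1 / 2 : ℕ) - 1 : ℤ) = (a + b - 1 : ℤ) - s := by
    have : hammingDist x.1 y.1 / 2 + s = a + b := by omega
    omega
  rw [e1, choose_sub s m, Fintype.sum_prod_type]
  have han : a < n + 1 := by
    have : (supp x.1).card ≤ n := by
      have := Finset.card_le_univ (supp x.1)
      rwa [Fintype.card_fin] at this
    omega
  rw [Finset.sum_eq_single (⟨a, han⟩ : Fin (n + 1))]
  · simp only [Uf, Wf, ← ha, true_and, ← hb]
    -- sum over the sets
    have h2 : ∀ S : {S : Finset (Fin n) // S.card ≤ m},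
        ((if S.1 ⊆ supp x.1 then (1 : ℤ) else 0) * if S.1 ⊆ supp y.1 then
          (-1) ^ S.1.card * Ring.choose ((a : ℤ) + b - 1 - S.1.card) (m - S.1.card) else 0) =
        if S.1 ⊆ supp x.1 ∩ supp y.1 then
          (-1) ^ S.1.card * Ring.choose ((a : ℤ) + b - 1 - S.1.card) (m - S.1.card) else 0 := by
      intro S
      by_cases h : S.1 ⊆ supp x.1 <;> by_cases h' : S.1 ⊆ supp y.1 <;>
        simp [Finset.subset_inter_iff, h, h']
    rw [Finset.sum_congr rfl fun S _ => h2 S]
    have h3 : ∑ S : {S : Finset (Fin n) // S.card ≤ m}, (if S.1 ⊆ supp x.1 ∩ supp y.1 then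
          (-1) ^ S.1.card * Ring.choose ((a : ℤ) + b - 1 - S.1.card) (m - S.1.card) else 0) =
        ∑ S ∈ (supp x.1 ∩ supp y.1).powerset, if S.card ≤ m then
          (-1) ^ S.card * Ring.choose ((a : ℤ) + b - 1 - S.card) (m - S.card) else 0 := by
      rw [Finset.sum_ite, Finset.sum_const_zero, add_zero]
      rw [← Finset.sum_filter]
      refine Finset.sum_bij (fun S _ => S.1) ?_ ?_ ?_ ?_
      · intro S hS
        rw [Finset.mem_filter] at hS
        rw [Finset.mem_filter, Finset.mem_powerset]
        exact ⟨hS.2, S.2⟩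
      · intro S _ S' _ h
        exact Subtype.ext h
      · intro S hS
        rw [Finset.mem_filter, Finset.mem_powerset] at hS
        exact ⟨⟨S, hS.2⟩, by rw [Finset.mem_filter]; exact ⟨Finset.mem_univ _, hS.1⟩, rfl⟩
      · intro S _
        rfl
    rw [h3]
    have h4 := Finset.sum_powerset_apply_card (fun j => if j ≤ m then
      (-1 : ℤ) ^ j * Ring.choose ((a : ℤ) + b - 1 - j) (m - j) else 0)
      (x := supp x.1 ∩ supp y.1)
    rw [h4, ← hs]
    -- both sums are over the same range
    have h5 : ∀ j, s.choose j • (if j ≤ m then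
        (-1 : ℤ) ^ j * Ring.choose ((a : ℤ) + b - 1 - j) (m - j) else 0) =
        if j ≤ m then (-1 : ℤ) ^ j * (s.choose j : ℤ) *
          Ring.choose ((a : ℤ) + b - 1 - j) (m - j) else 0 := by
      intro j
      split_ifs
      · rw [nsmul_eq_mul]; ring
      · simp
    rw [Finset.sum_congr rfl fun j _ => h5 j]
    rcases le_total s m with hsm | hsm
    · rw [← Finset.sum_subset (s₁ := range (s + 1)) (s₂ := range (m + 1))]
      · refine Finset.sum_congr rfl fun j hj => ?_
        rw [Finset.mem_range] at hj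
        rw [if_pos (by omega)]
      · intro j hj
        rw [Finset.mem_range] at hj ⊢
        omega
      · intro j _ hj
        rw [Finset.mem_range] at hj
        rw [Nat.choose_eq_zero_of_lt (by omega)]
        simp
    · rw [← Finset.sum_subset (s₁ := range (m + 1)) (s₂ := range (s + 1))]
      · refine Finset.sum_congr rfl fun j hj => ?_
        rw [Finset.mem_range] at hj
        rw [if_pos (by omega)]
      · intro j hj
        rw [Finset.mem_range] at hj ⊢
        omega
      · intro j _ hj
        rw [Finset.mem_range] at hj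
        rw [if_neg (by omega)]
  · intro c _ hc
    refine Finset.sum_eq_zero fun S _ => ?_
    simp only [Uf, ← ha]
    rw [if_neg, zero_mul]
    rintro ⟨h, -⟩
    exact hc (Fin.ext h.symm)
  · intro h
    exact absurd (Finset.mem_univ _) h

lemma rank_add_le' {F : Type*} [Field F] {α β : Type*} [Finite α] [Fintype β]
    (A B : Matrix α β F) : (A + B).rank ≤ A.rank + B.rank := by
  unfold Matrix.rank
  rw [Matrix.mulVecLin_add]
  have h : LinearMap.range (A.mulVecLin + B.mulVecLin) ≤
      LinearMap.range A.mulVecLin ⊔ LinearMap.range B.mulVecLin := by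
    rintro _ ⟨x, rfl⟩
    exact Submodule.add_mem_sup (LinearMap.mem_range_self _ x) (LinearMap.mem_range_self _ x)
  exact (Submodule.finrank_mono h).trans (Submodule.finrank_add_le_finrank_add_finrank _ _)

lemma rank_sum_le {F : Type*} [Field F] {ι α β : Type*} [Fintype α] [Fintype β] [DecidableEq β]
    (s : Finset ι) (M : ι → Matrix α β F) (r : ℕ) (h : ∀ i ∈ s, (M i).rank ≤ r) :
    (∑ i ∈ s, M i).rank ≤ s.card * r := by
  classical
  induction s using Finset.induction_on with
  | empty => simp
  | insert a s ha ih =>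
    rw [Finset.sum_insert ha, Finset.card_insert_of_notMem ha]
    refine (rank_add_le' _ _).trans ?_
    have h1 := h a (Finset.mem_insert_self a s)
    have h2 := ih fun i hi => h i (Finset.mem_insert_of_mem hi)
    rw [add_mul, one_mul]
    omega

/-- half of the words have even weight -/
lemma card_Ev (n : ℕ) : 2 ^ n ≤ 2 * Fintype.card (Ev n) := by
  rcases Nat.eq_zero_or_pos n with h | h
  · subst h
    have : 0 < Fintype.card (Ev 0) := by
      rw [Fintype.card_pos_iff]
      exact ⟨⟨fun _ => false, by simp [supp]⟩⟩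
    simp only [pow_zero]
    omega
  · have h1 : Fintype.card (Fin n → Bool) =
        Fintype.card (Ev n) + Fintype.card {x : Fin n → Bool // ¬ Even (supp x).card} := by
      have h0 := Fintype.card_subtype_compl (fun x : Fin n → Bool => Even (supp x).card)
      have h9 : Fintype.card (Ev n) ≤ Fintype.card (Fin n → Bool) := Fintype.card_subtype_le _
      have h10 : Fintype.card (Ev n) = Fintype.card {x : Fin n → Bool // Even (supp x).card} :=
        Fintype.card_congr (Equiv.refl _)
      omega
    have h2 : Fintype.card {x : Fin n → Bool // ¬ Even (supp x).card} ≤ Fintype.card (Ev n) := by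
      have hpar : ∀ x : Fin n → Bool, ¬ Even (supp x).card →
          Even (supp (Function.update x ⟨0, h⟩ (!x ⟨0, h⟩))).card := by
        intro x hx
        have hd := dist_eq x (Function.update x ⟨0, h⟩ (!x ⟨0, h⟩))
        have h3 : hammingDist x (Function.update x ⟨0, h⟩ (!x ⟨0, h⟩)) = 1 := by
          unfold hammingDist
          rw [Finset.card_eq_one]
          refine ⟨⟨0, h⟩, ?_⟩
          ext i
          simp only [Finset.mem_filter, Finset.mem_univ, true_and, Finset.mem_singleton]
          by_cases hi : i = ⟨0, h⟩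
          · subst hi
            simp
          · simp [Function.update_of_ne hi, hi]
        rw [Nat.not_even_iff_odd] at hx
        obtain ⟨a, ha⟩ := hx
        rw [h3] at hd
        rw [Nat.even_iff]
        omega
      refine Fintype.card_le_of_injective
        (fun x => (⟨Function.update x.1 ⟨0, h⟩ (!x.1 ⟨0, h⟩), hpar x.1 x.2⟩ : Ev n)) ?_
      intro x y hxy
      have h4 := congrArg Subtype.val hxy
      simp only at h4
      apply Subtype.ext
      funext i
      by_cases hi : i = ⟨0, h⟩
      · have h5 := congrFun h4 ⟨0, h⟩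
        simp only [Function.update_self] at h5
        rw [hi]
        exact Bool.not_inj h5
      · have h5 := congrFun h4 i
        rwa [Function.update_of_ne hi, Function.update_of_ne hi] at h5
    rw [Fintype.card_fun, Fintype.card_bool, Fintype.card_fin] at h1
    omega

/-- **The lower bound for the rank.** -/
theorem rank_ge {F : Type*} [Field F] {n d k : ℕ} (hd : 1 ≤ d)
    (M : Matrix ((Fin n → Bool) × Fin k) ((Fin n → Bool) × Fin k) F)
    (h1 : ∀ x i j, M (x, i) (x, j) = if i = j then 1 else 0)
    (h2 : ∀ x y i j, d ≤ hammingDist x y → M (x, i) (y, j) = 0) :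
    2 ^ n * k ≤ 2 * ((n + 1) * vol n ((d - 1) / 2) * M.rank) := by
  classical
  obtain ⟨m, hm⟩ : ∃ m, m = (d - 1) / 2 := ⟨_, rfl⟩
  rw [← hm]
  -- restriction to the words of even weight
  obtain ⟨M', hM'⟩ : ∃ M' : Matrix (Ev n × Fin k) (Ev n × Fin k) F,
      M' = M.submatrix (fun p => (p.1.1, p.2)) (fun p => (p.1.1, p.2)) := ⟨_, rfl⟩
  have hr : M'.rank ≤ M.rank := by
    rw [hM']
    exact Matrix.rank_submatrix_le _ _ _
  -- the Hadamard product
  obtain ⟨P, hP⟩ : ∃ P : Matrix (Ev n × Fin k) (Ev n × Fin k) F,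
      P = ∑ κ : Kt n m, Matrix.diagonal (fun p : Ev n × Fin k => ((Uf m p.1.1 κ : ℤ) : F)) * M' *
        Matrix.diagonal (fun p : Ev n × Fin k => ((Wf m κ p.1.1 : ℤ) : F)) := ⟨_, rfl⟩
  have hP1 : P.rank ≤ Fintype.card (Kt n m) * M.rank := by
    rw [hP]
    refine (rank_sum_le _ _ M.rank fun κ _ => ?_).trans (by rw [Finset.card_univ])
    refine (Matrix.rank_mul_le_left _ _).trans ?_
    exact (Matrix.rank_mul_le_right _ _).trans hr
  have hP2 : P = ((-1) ^ m : F) • (1 : Matrix (Ev n × Fin k) (Ev n × Fin k) F) := by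
    ext ⟨x, i⟩ ⟨y, j⟩
    rw [hP, Matrix.sum_apply]
    have e1 : ∀ κ : Kt n m, (Matrix.diagonal (fun p : Ev n × Fin k => ((Uf m p.1.1 κ : ℤ) : F)) *
        M' * Matrix.diagonal (fun p : Ev n × Fin k => ((Wf m κ p.1.1 : ℤ) : F))) (x, i) (y, j) =
        M (x.1, i) (y.1, j) * ((Uf m x.1 κ * Wf m κ y.1 : ℤ) : F) := by
      intro κ
      rw [Matrix.mul_diagonal, Matrix.diagonal_mul, hM']
      simp only [Matrix.submatrix_apply]
      push_cast
      ring
    rw [Finset.sum_congr rfl fun κ _ => e1 κ, ← Finset.mul_sum, ← Int.cast_sum, factor m x y,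
      Matrix.smul_apply, Matrix.one_apply]
    by_cases hxy : x = y
    · subst hxy
      rw [h1, hammingDist_self]
      have : (((0 / 2 : ℕ) : ℤ) - 1) = -1 := by norm_num
      rw [this, choose_neg_one]
      by_cases hij : i = j
      · simp [hij]
      · simp [hij]
    · rw [if_neg (fun h => hxy (congrArg Prod.fst h)), smul_zero]
      by_cases hd2 : d ≤ hammingDist x.1 y.1
      · rw [h2 _ _ _ _ hd2, zero_mul]
      · have hne : x.1 ≠ y.1 := fun h => hxy (Subtype.ext h)
        have hpos : 0 < hammingDist x.1 y.1 := hammingDist_pos.2 hne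
        obtain ⟨c, hc⟩ := even_dist x y
        have e2 : ((hammingDist x.1 y.1 / 2 : ℕ) - 1 : ℤ) = ((c - 1 : ℕ) : ℤ) := by omega
        rw [e2, choose_small (by omega), Int.cast_zero, mul_zero]
  have hP3 : P.rank = Fintype.card (Ev n × Fin k) := by
    rw [hP2, ← Matrix.diagonal_one, ← Matrix.diagonal_smul]
    rw [Matrix.rank_diagonal]
    rw [Fintype.card_subtype, Finset.filter_true_of_mem, Finset.card_univ]
    intro i _
    simp
  have hEv := card_Ev n
  rw [hP3, card_Kt, Fintype.card_prod, Fintype.card_fin] at hP1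
  calc 2 ^ n * k ≤ 2 * Fintype.card (Ev n) * k := Nat.mul_le_mul_right _ hEv
    _ = 2 * (Fintype.card (Ev n) * k) := by ring
    _ ≤ _ := Nat.mul_le_mul_left _ hP1

end Pool.Agent.K9h1.HB
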