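import Mathlib
import Pool.Agent.K9h1.HB.Rank

/-!
K9h1/HB (helper1, MP_0430e4_lc): coverings of the cube by balls.
-/

set_option autoImplicit false

open Finset Filter Topology

namespace Pool.Agent.K9h1.HB

lemma card_ball (n m : ℕ) (x : Fin n → Bool) :
    (univ.filter fun c : Fin n → Bool => hammingDist x c ≤ m).card = vol n m := by
  have h1 : (univ.filter fun S : Finset (Fin n) => S.card ≤ m).card = vol n m := by
    have := card_Kt n m
    rw [Fintype.card_prod, Fintype.card_fin, Fintype.card_subtype] at this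
    exact Nat.eq_of_mul_eq_mul_left (Nat.succ_pos n) this
  rw [← h1]
  refine Finset.card_bij (fun c _ => univ.filter fun i => x i ≠ c i) ?_ ?_ ?_
  · intro c hc
    rw [Finset.mem_filter] at hc ⊢
    exact ⟨Finset.mem_univ _, hc.2⟩
  · intro c _ c' _ h
    funext i
    have h2 := congrArg (fun S : Finset (Fin n) => i ∈ S) h
    simp only [Finset.mem_filter, Finset.mem_univ, true_and, eq_iff_iff] at h2
    cases hx : x i <;> cases hc : c i <;> cases hc' : c' i <;> simp_all
  · intro S hS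
    rw [Finset.mem_filter] at hS
    refine ⟨fun i => if i ∈ S then !x i else x i, ?_, ?_⟩
    · rw [Finset.mem_filter]
      refine ⟨Finset.mem_univ _, ?_⟩
      have h2 : hammingDist x (fun i => if i ∈ S then !x i else x i) = S.card := by
        unfold hammingDist
        congr 1
        ext i
        simp only [Finset.mem_filter, Finset.mem_univ, true_and]
        by_cases hi : i ∈ S
        · simp [hi]
        · simp [hi]
      rw [h2]
      exact hS.2
    · ext i
      simp only [Finset.mem_filter, Finset.mem_univ, true_and]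
      by_cases hi : i ∈ S
      · simp [hi]
      · simp [hi]

/-- the words which are not covered -/
def unc (n m : ℕ) (S : Finset (Fin n → Bool)) : Finset (Fin n → Bool) :=
  univ.filter fun x => ∀ c ∈ S, m < hammingDist x c

lemma greedy (n m t : ℕ) : ∃ S : Finset (Fin n → Bool), S.card ≤ t ∧
    ((unc n m S).card : ℝ) ≤ 2 ^ n * (1 - vol n m / 2 ^ n) ^ t := by
  induction t with
  | zero =>
    refine ⟨∅, le_rfl, ?_⟩
    rw [pow_zero, mul_one]
    have h1 : (unc n m ∅).card ≤ Fintype.card (Fin n → Bool) := Finset.card_le_univ _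
    rw [Fintype.card_fun, Fintype.card_bool, Fintype.card_fin] at h1
    exact_mod_cast h1
  | succ t ih =>
    obtain ⟨S, hS, hU⟩ := ih
    have hN : (0 : ℝ) < 2 ^ n := by positivity
    have hdc : ∑ c : Fin n → Bool, ((unc n m S).filter fun x => hammingDist x c ≤ m).card =
        (unc n m S).card * vol n m := by
      simp_rw [Finset.card_filter]
      rw [Finset.sum_comm]
      rw [Finset.sum_congr rfl fun x _ => by rw [← Finset.card_filter, card_ball n m x]]
      rw [Finset.sum_const, smul_eq_mul]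
    obtain ⟨c, -, hc⟩ : ∃ c ∈ (univ : Finset (Fin n → Bool)),
        ((unc n m S).card : ℝ) * (vol n m / 2 ^ n) ≤
        ((unc n m S).filter fun x => hammingDist x c ≤ m).card := by
      apply Finset.exists_le_of_sum_le ⟨fun _ => false, Finset.mem_univ _⟩
      rw [Finset.sum_const, Finset.card_univ, Fintype.card_fun, Fintype.card_bool,
        Fintype.card_fin, nsmul_eq_mul, ← Nat.cast_sum, hdc]
      push_cast
      refine le_of_eq ?_
      field_simp
    refine ⟨insert c S, (Finset.card_insert_le _ _).trans (by omega), ?_⟩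
    have h2 : (unc n m (insert c S)).card +
        ((unc n m S).filter fun x => hammingDist x c ≤ m).card ≤ (unc n m S).card := by
      rw [← Finset.card_union_of_disjoint]
      · refine Finset.card_le_card fun x hx => ?_
        rw [Finset.mem_union] at hx
        rcases hx with hx | hx
        · unfold unc at hx ⊢
          rw [Finset.mem_filter] at hx ⊢
          exact ⟨hx.1, fun c' hc' => hx.2 c' (Finset.mem_insert_of_mem hc')⟩
        · exact (Finset.mem_filter.1 hx).1
      · rw [Finset.disjoint_left]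
        intro x hx hx'
        unfold unc at hx
        rw [Finset.mem_filter] at hx hx'
        have := hx.2 c (Finset.mem_insert_self _ _)
        omega
    have h3 : ((unc n m (insert c S)).card : ℝ) +
        ((unc n m S).filter fun x => hammingDist x c ≤ m).card ≤ (unc n m S).card := by
      exact_mod_cast h2
    have hv : (vol n m : ℝ) / 2 ^ n ≤ 1 := by
      rw [div_le_one hN]
      exact_mod_cast vol_le_two_pow n m
    calc ((unc n m (insert c S)).card : ℝ) ≤ (unc n m S).card * (1 - vol n m / 2 ^ n) := by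
          linarith
      _ ≤ 2 ^ n * (1 - vol n m / 2 ^ n) ^ t * (1 - vol n m / 2 ^ n) :=
          mul_le_mul_of_nonneg_right hU (by linarith)
      _ = 2 ^ n * (1 - vol n m / 2 ^ n) ^ (t + 1) := by rw [pow_succ]; ring

/-- a covering with few balls -/
theorem exists_cover (n m : ℕ) : ∃ S : Finset (Fin n → Bool),
    (S.card : ℝ) ≤ n * 2 ^ n / vol n m + 1 ∧ ∀ x, ∃ c ∈ S, hammingDist x c ≤ m := by
  have hN : (0 : ℝ) < 2 ^ n := by positivity
  have hV : (0 : ℝ) < vol n m := by exact_mod_cast vol_pos n m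
  obtain ⟨t, ht⟩ : ∃ t : ℕ, t = ⌊(n : ℝ) * 2 ^ n / vol n m⌋₊ + 1 := ⟨_, rfl⟩
  obtain ⟨S, hS, hU⟩ := greedy n m t
  have ht1 : (t : ℝ) ≤ n * 2 ^ n / vol n m + 1 := by
    rw [ht]
    push_cast
    have := Nat.floor_le (show (0 : ℝ) ≤ n * 2 ^ n / vol n m by positivity)
    linarith
  have ht2 : (n : ℝ) * 2 ^ n / vol n m < t := by
    rw [ht]
    push_cast
    exact Nat.lt_floor_add_one _
  refine ⟨S, (by exact_mod_cast hS : (S.card : ℝ) ≤ t).trans ht1, ?_⟩
  have hv : (vol n m : ℝ) / 2 ^ n ≤ 1 := by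
    rw [div_le_one hN]
    exact_mod_cast vol_le_two_pow n m
  have h1 : (1 - (vol n m : ℝ) / 2 ^ n) ^ t ≤ Real.exp (-(t * (vol n m / 2 ^ n))) := by
    have h2 : 1 - (vol n m : ℝ) / 2 ^ n ≤ Real.exp (-(vol n m / 2 ^ n)) :=
      Real.one_sub_le_exp_neg _
    calc (1 - (vol n m : ℝ) / 2 ^ n) ^ t ≤ Real.exp (-(vol n m / 2 ^ n)) ^ t :=
          pow_le_pow_left₀ (by linarith) h2 t
      _ = Real.exp (-(t * (vol n m / 2 ^ n))) := by
          rw [← Real.exp_nat_mul]
          congr 1
          ring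
  have h3 : (n : ℝ) < t * (vol n m / 2 ^ n) := by
    rw [div_lt_iff₀ hV] at ht2
    rw [← mul_div_assoc, lt_div_iff₀ hN]
    exact ht2
  have h4 : ((unc n m S).card : ℝ) < 1 := by
    calc ((unc n m S).card : ℝ) ≤ 2 ^ n * (1 - vol n m / 2 ^ n) ^ t := hU
      _ ≤ 2 ^ n * Real.exp (-(t * (vol n m / 2 ^ n))) := mul_le_mul_of_nonneg_left h1 hN.le
      _ < 2 ^ n * Real.exp (-(n : ℝ)) := by
          refine mul_lt_mul_of_pos_left (Real.exp_lt_exp.2 (by linarith)) hN
      _ ≤ Real.exp 1 ^ n * Real.exp (-(n : ℝ)) := by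
          refine mul_le_mul_of_nonneg_right ?_ (Real.exp_pos _).le
          refine pow_le_pow_left₀ (by norm_num) ?_ n
          have := Real.exp_one_gt_d9
          linarith
      _ = 1 := by
          rw [← Real.exp_nat_mul, mul_one, ← Real.exp_add]
          simp
  have h5 : unc n m S = ∅ := by
    rw [← Finset.card_eq_zero]
    have : (unc n m S).card < 1 := by exact_mod_cast h4
    omega
  intro x
  by_contra hcon
  push Not at hcon
  have : x ∈ unc n m S := by
    unfold unc
    rw [Finset.mem_filter]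
    exact ⟨Finset.mem_univ _, hcon⟩
  rw [h5] at this
  exact absurd this (Finset.notMem_empty _)

/-- a matrix of small rank which fits the graph of close words -/
theorem exists_matrix (F : Type*) [Field F] {n d : ℕ} (hd : 1 ≤ d) :
    ∃ M : Matrix (Fin n → Bool) (Fin n → Bool) F, (∀ x, M x x = 1) ∧
      (∀ x y, d ≤ hammingDist x y → M x y = 0) ∧
      (M.rank : ℝ) ≤ n * 2 ^ n / vol n ((d - 1) / 2) + 1 := by
  classical
  obtain ⟨S, hS, hc⟩ := exists_cover n ((d - 1) / 2)
  choose f hf hfd using hc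
  obtain ⟨U, hU⟩ : ∃ U : Matrix (Fin n → Bool) S F,
      U = Matrix.of fun x c => if f x = c.1 then 1 else 0 := ⟨_, rfl⟩
  have hM : ∀ x y, (U * U.transpose) x y = if f x = f y then 1 else 0 := by
    intro x y
    rw [Matrix.mul_apply, hU]
    simp only [Matrix.of_apply, Matrix.transpose_apply]
    rw [Finset.sum_eq_single (⟨f x, hf x⟩ : S)]
    · simp only [if_true, one_mul]
      by_cases h : f y = f x
      · rw [if_pos h, if_pos h.symm]
      · rw [if_neg h, if_neg (Ne.symm h)]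
    · intro c _ hcx
      rw [if_neg, zero_mul]
      intro h
      exact hcx (Subtype.ext h.symm)
    · intro h
      exact absurd (Finset.mem_univ _) h
  refine ⟨U * U.transpose, fun x => by rw [hM, if_pos rfl], fun x y hxy => ?_, ?_⟩
  · rw [hM, if_neg]
    intro h
    have h1 := hammingDist_triangle x (f x) y
    have h2 := hfd x
    have h3 := hfd y
    rw [← h, hammingDist_comm] at h3
    omega
  · refine le_trans ?_ hS
    have h1 : (U * U.transpose).rank ≤ Fintype.card S :=
      (Matrix.rank_mul_le_left _ _).trans (Matrix.rank_le_card_width _)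
    rw [Fintype.card_coe] at h1
    exact_mod_cast h1

/-- the exponent of the volume of the balls -/
theorem vol_exp {δ : ℝ} (h0 : 0 < δ) (h1 : δ < 1) :
    Tendsto (fun n : ℕ => Real.log (vol n ((⌈δ * n⌉₊ - 1) / 2)) / n) atTop
      (𝓝 (Real.binEntropy (δ / 2))) := by
  have hm : Tendsto (fun n : ℕ => (((⌈δ * n⌉₊ - 1) / 2 : ℕ) : ℝ) / n) atTop (𝓝 (δ / 2)) := by
    have hinv : Tendsto (fun n : ℕ => (1 : ℝ) / n) atTop (𝓝 0) :=
      tendsto_const_div_atTop_nhds_zero_nat 1
    have hl : Tendsto (fun n : ℕ => δ / 2 - 1 * (1 / (n : ℝ))) atTop (𝓝 (δ / 2 - 1 * 0)) :=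
      tendsto_const_nhds.sub (hinv.const_mul 1)
    have hu : Tendsto (fun n : ℕ => δ / 2 + 0 * (1 / (n : ℝ))) atTop (𝓝 (δ / 2 + 0 * 0)) :=
      tendsto_const_nhds.add (hinv.const_mul 0)
    simp only [mul_zero, sub_zero, add_zero] at hl hu
    refine tendsto_of_tendsto_of_tendsto_of_le_of_le' hl hu ?_ ?_
    · filter_upwards [eventually_ge_atTop 1] with n hn
      have hnR : (0 : ℝ) < n := by exact_mod_cast hn
      rw [le_div_iff₀ hnR]
      have h2 : δ * n ≤ ⌈δ * n⌉₊ := Nat.le_ceil _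
      have h3 : (⌈δ * n⌉₊ : ℝ) ≤ 2 * (((⌈δ * n⌉₊ - 1) / 2 : ℕ) : ℝ) + 2 := by
        have : ⌈δ * (n : ℝ)⌉₊ ≤ 2 * ((⌈δ * (n : ℝ)⌉₊ - 1) / 2) + 2 := by omega
        exact_mod_cast this
      have e : (δ / 2 - 1 * (1 / (n : ℝ))) * n = δ * n / 2 - 1 := by field_simp
      rw [e]
      linarith
    · filter_upwards [eventually_ge_atTop 1] with n hn
      have hnR : (0 : ℝ) < n := by exact_mod_cast hn
      rw [div_le_iff₀ hnR]
      have h2 : ((⌈δ * n⌉₊ : ℕ) : ℝ) < δ * n + 1 := Nat.ceil_lt_add_one (by positivity)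
      have h4 : 1 ≤ ⌈δ * (n : ℝ)⌉₊ := Nat.one_le_iff_ne_zero.2 (Nat.ceil_pos.2 (by positivity)).ne'
      have h3 : 2 * (((⌈δ * n⌉₊ - 1) / 2 : ℕ) : ℝ) + 1 ≤ (⌈δ * n⌉₊ : ℝ) := by
        have : 2 * ((⌈δ * (n : ℝ)⌉₊ - 1) / 2) + 1 ≤ ⌈δ * (n : ℝ)⌉₊ := by omega
        exact_mod_cast this
      linarith
  have hcont : Tendsto (fun n : ℕ => Real.binEntropy ((((⌈δ * n⌉₊ - 1) / 2 : ℕ) : ℝ) / n)) atTop
      (𝓝 (Real.binEntropy (δ / 2))) :=
    (Real.binEntropy_continuous.tendsto _).comp hm
  have hlog : Tendsto (fun n : ℕ => Real.log ((n : ℝ) + 1) / n) atTop (𝓝 0) := by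
    have h2 : Tendsto (fun x : ℝ => Real.log x / x) atTop (𝓝 0) := by
      have := Real.isLittleO_log_id_atTop.tendsto_div_nhds_zero
      simpa using this
    have h3 : Tendsto (fun n : ℕ => (n : ℝ) + 1) atTop atTop :=
      tendsto_atTop_add_const_right _ _ tendsto_natCast_atTop_atTop
    have h4 : Tendsto (fun n : ℕ => Real.log ((n : ℝ) + 1) / ((n : ℝ) + 1) * (1 + 1 / (n : ℝ)))
        atTop (𝓝 (0 * (1 + 0))) :=
      (h2.comp h3).mul (tendsto_const_nhds.add (tendsto_const_div_atTop_nhds_zero_nat 1))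
    rw [zero_mul] at h4
    refine h4.congr' ?_
    filter_upwards [eventually_ge_atTop 1] with n hn
    have hnR : (0 : ℝ) < n := by exact_mod_cast hn
    field_simp
  have hlow : Tendsto (fun n : ℕ => Real.binEntropy ((((⌈δ * n⌉₊ - 1) / 2 : ℕ) : ℝ) / n) -
      Real.log ((n : ℝ) + 1) / n) atTop (𝓝 (Real.binEntropy (δ / 2) - 0)) := hcont.sub hlog
  rw [sub_zero] at hlow
  refine tendsto_of_tendsto_of_tendsto_of_le_of_le' hlow tendsto_const_nhds ?_ ?_
  · filter_upwards [eventually_ge_atTop 1] with n hn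
    have hnR : (0 : ℝ) < n := by exact_mod_cast hn
    have hle : (⌈δ * (n : ℝ)⌉₊ - 1) / 2 ≤ n := by
      have : ⌈δ * (n : ℝ)⌉₊ ≤ n := by
        rw [Nat.ceil_le]
        nlinarith
      omega
    have h2 := vol_ge (by omega : 0 < n) hle
    have hV : (0 : ℝ) < vol n ((⌈δ * (n : ℝ)⌉₊ - 1) / 2) := by exact_mod_cast vol_pos _ _
    have h3 := Real.log_le_log (Real.exp_pos _) h2
    rw [Real.log_exp, Real.log_mul (by positivity) hV.ne'] at h3
    rw [le_div_iff₀ hnR, sub_mul, div_mul_cancel₀ _ hnR.ne']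
    linarith
  · filter_upwards [eventually_ge_atTop 1] with n hn
    have hnR : (0 : ℝ) < n := by exact_mod_cast hn
    have hV : (0 : ℝ) < vol n ((⌈δ * (n : ℝ)⌉₊ - 1) / 2) := by exact_mod_cast vol_pos _ _
    have h2 : ((⌈δ * n⌉₊ : ℕ) : ℝ) < δ * n + 1 := Nat.ceil_lt_add_one (by positivity)
    have h4 : 1 ≤ ⌈δ * (n : ℝ)⌉₊ := Nat.one_le_iff_ne_zero.2 (Nat.ceil_pos.2 (by positivity)).ne'
    have h3 : 2 * (((⌈δ * n⌉₊ - 1) / 2 : ℕ) : ℝ) + 1 ≤ (⌈δ * n⌉₊ : ℝ) := by
      have : 2 * ((⌈δ * (n : ℝ)⌉₊ - 1) / 2) + 1 ≤ ⌈δ * (n : ℝ)⌉₊ := by omega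
      exact_mod_cast this
    have h5 := vol_le (n := n) (m := (⌈δ * (n : ℝ)⌉₊ - 1) / 2) (p := δ / 2) (by linarith)
      (by linarith) (by linarith)
    have h6 := Real.log_le_log hV h5
    rw [Real.log_exp] at h6
    rw [div_le_iff₀ hnR]
    linarith

end Pool.Agent.K9h1.HB
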